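import Pool.Agent.Helper909_ea.Final2

/-!
# MP_ef2672_gt: Hermite's constant of lattices with an elementary abelian group of symmetries

For a prime number `p`, let `γ_n(p, k)` be the supremum of the Hermite invariants of the lattices
of `ℝ^n` which are mapped to themselves by a group of linear isometries isomorphic to `(ℤ/p)^k`
(such lattices exist if and only if `(p - 1) k ≤ n`). The isometries are arbitrary. We prove

`n^(1 - (p-1) k / n) / 400 ≤ γ_n(p, k) ≤ 25 n (p^(4t+2) (p-1) (t+1) / n)^((p-1) k / n - p / (t+1))`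

for all `t` with `p^(4t+2) (p-1) (t+1) ≤ n`. So `γ_n(p, k) = n^(1 - (p-1) k / n + o(1))`, uniformly in
`k` for fixed `p`, and uniformly in all `p` and `k` with `k ≥ κ n`; in particular the analogue of the
question for lattices with symmetry groups of `p`-rank at least `κ n` (for some prime `p`) has the
answer yes, with limit zero. Conversely, if a lattice has Hermite invariant at least `c n`, then the
elementary abelian `p`-subgroups of its automorphism group have rank at most
`(32 log p + 2 log (25/c)) n / log n`; for fixed `p` and `c < 1/400` this is the right order.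

Proof of the upper bound. At most `n` of the real isotypic components `V_b` of the group are
nonzero, and their characters `b` span the dual group. Removing `t + 1` times a maximal independent
set of characters shows that at least `k - n/(t+1)` of the characters `b` have the property that
all other components are killed by a product of at most `2t + 1` operators `p - N_e`, `N_e` the sum
of the powers of the group element `e`, which act on `V_b` as multiplication by `p`. So
`q P_b`, `q = p^(2t+1)`, `P_b` the orthogonal projection to `V_b`, maps the lattice `Λ` into itself,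
and the components `P_b x`, `x ∈ Λ`, are zero or at least as long as the minimum divided by `q`. All
but `n / D` of these components have dimension at most `D = (p-1)(t+1)`, and at least `p - 1` since
`Λ ∩ V_b` is a module over the ring of `p`-th roots of unity. So the translates by `Λ` of a box with
`m ≥ (p-1) k - p n/(t+1)` edges of length `≍ 1 / (q √D)` in these components and `n - m` edges of
length `≍ 1 / √n` do not overlap. The lower bound comes from orthogonal sums of a dense lattice and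
`k` copies of `A_{p-1}^*`.
-/

open Filter

namespace Pool.Agent.Results.MP_ef2672_gt.ElementaryAbelianSymmetry

open Pool.Agent.Helper909EA Pool.Agent.H160R3.Herm

/-- Hermite's constant of the lattices `A ℤ^n` with `(ℤ/p)^k` acting by automorphisms:
the supremum of `minSq A / |det A|^(2/n)` over all `A` with `det A ≠ 0` for which `A ℤ^n` is mapped
to itself by a group of orthogonal matrices isomorphic to `(ℤ/p)^k`. -/
noncomputable def gammaSym (p k n : ℕ) : ℝ :=
  ⨆ A : {A : Matrix (Fin n) (Fin n) ℝ // A.det ≠ 0 ∧ HasGroup p k A},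
    minSq A.1 / |A.1.det| ^ ((2 : ℝ) / (n : ℝ))

/-- The Hermite invariants of the lattices with `(ℤ/p)^k` for some prime `p` and some `k ≥ κ n`. -/
noncomputable def gammaRank (κ : ℝ) (n : ℕ) : ℝ :=
  ⨆ A : {A : Matrix (Fin n) (Fin n) ℝ // A.det ≠ 0 ∧
      ∃ p k : ℕ, p.Prime ∧ κ * n ≤ k ∧ HasGroup p k A},
    minSq A.1 / |A.1.det| ^ ((2 : ℝ) / (n : ℝ))

lemma bdd {p k n : ℕ} (hp : p.Prime) (hn : 0 < n) : BddAbove (Set.range
    fun A : {A : Matrix (Fin n) (Fin n) ℝ // A.det ≠ 0 ∧ HasGroup p k A} =>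
      minSq A.1 / |A.1.det| ^ ((2 : ℝ) / (n : ℝ))) := by
  refine ⟨25 * (p : ℝ) ^ (4 * 0 + 3) *
    (n : ℝ) ^ (1 - ((p : ℝ) - 1) * (k / n - 1 / ((0 : ℕ) + 1))), ?_⟩
  rintro _ ⟨A, rfl⟩
  exact herm_bound hp hn 0 A.2.1 (elem_of_group A.2.1 A.2.2)

lemma le_gammaSym {p k n : ℕ} (hp : p.Prime) (hn : 0 < n) {A : Matrix (Fin n) (Fin n) ℝ}
    (hA : A.det ≠ 0) (h : HasGroup p k A) : herm A ≤ gammaSym p k n :=
  le_ciSup (bdd hp hn) ⟨A, hA, h⟩

lemma gammaSym_le {p k n : ℕ} {C : ℝ} (hC : 0 ≤ C)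
    (h : ∀ A : Matrix (Fin n) (Fin n) ℝ, A.det ≠ 0 → HasGroup p k A →
      herm A ≤ C) : gammaSym p k n ≤ C :=
  Real.iSup_le (fun A => h A.1 A.2.1 A.2.2) hC

lemma lower {p k n : ℕ} (hp : p.Prime) (hn : 0 < n) (hk : (p - 1) * k ≤ n) :
    (n : ℝ) ^ (1 - ((p : ℝ) - 1) * k / n) / 400 ≤ gammaSym p k n := by
  obtain ⟨A, hA, hs, h⟩ := herm_lower hp hn hk
  exact h.trans (le_gammaSym hp hn hA (group_of_sym hA hs))

lemma logb_bounds {n : ℕ} (hn : 2 ≤ n) {e ε g : ℝ} (hg : 0 < g) (h1 : (n : ℝ) ^ (e - ε) ≤ g)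
    (h2 : g ≤ (n : ℝ) ^ (e + ε)) : |Real.logb n g - e| ≤ ε := by
  have hn1 : (1 : ℝ) < n := by exact_mod_cast (by omega : 1 < n)
  rw [← Real.le_logb_iff_rpow_le hn1 hg] at h1
  rw [← Real.logb_le_iff_le_rpow hn1 hg] at h2
  rw [abs_le]
  constructor <;> linarith

/-- Two-sided explicit bounds for `γ_n(p, k)`. -/
def TwoSided : Prop :=
  ∀ p k n : ℕ, p.Prime → 0 < n → (p - 1) * k ≤ n →
    (n : ℝ) ^ (1 - ((p : ℝ) - 1) * k / n) / 400 ≤ gammaSym p k n ∧
    ∀ t : ℕ, p ^ (4 * t + 2) * ((p - 1) * (t + 1)) ≤ n →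
      gammaSym p k n ≤ 25 * n * ((p : ℝ) ^ (4 * t + 2) * (((p : ℝ) - 1) * (t + 1)) / n) ^
        (((p : ℝ) - 1) * k / n - p / (t + 1))

/-- `γ_n(p, k) = n^(1 - (p-1) k / n + δ)` with `|δ| ≤ ε`. -/
def Exponent (ε : ℝ) (p k n : ℕ) : Prop :=
  |Real.logb n (gammaSym p k n) - (1 - ((p : ℝ) - 1) * k / n)| ≤ ε

/-- The exponent of growth, for one prime and all ranks. -/
def ExponentFixedPrime : Prop :=
  ∀ p : ℕ, p.Prime → ∀ ε : ℝ, 0 < ε → ∃ n0 : ℕ, ∀ n ≥ n0, ∀ k : ℕ, (p - 1) * k ≤ n →
    Exponent ε p k n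

/-- The exponent of growth, uniformly in the prime, for ranks proportional to `n`. -/
def ExponentUniform : Prop :=
  ∀ κ ε : ℝ, 0 < κ → 0 < ε → ∃ n0 : ℕ, ∀ n ≥ n0, ∀ p k : ℕ, p.Prime → κ * n ≤ k →
    (p - 1) * k ≤ n → Exponent ε p k n

/-- No other ranks occur. -/
def NoOtherRanks : Prop :=
  ∀ p k n : ℕ, p.Prime → 0 < n → ∀ A : Matrix (Fin n) (Fin n) ℝ, A.det ≠ 0 →
    HasGroup p k A → (p - 1) * k ≤ n

/-- The groups of lattices with Hermite invariant at least `c n` have rank at most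
`(32 log p + 2 log (25/c)) n / log n`. -/
def SmallRank : Prop :=
  ∀ c : ℝ, 0 < c → c ≤ 1 → ∀ n p k : ℕ, 2 ≤ n → p.Prime → ∀ A : Matrix (Fin n) (Fin n) ℝ,
    A.det ≠ 0 → HasGroup p k A →
    c * n ≤ minSq A / |A.det| ^ ((2 : ℝ) / (n : ℝ)) →
    (k : ℝ) ≤ (32 * Real.log p + 2 * Real.log (25 / c)) * n / Real.log n

/-- The order `n / log n` is right: all ranks `k ≤ n / (p - 1)` with
`(p - 1) k log n ≤ n log (1 / (400 c))` occur. -/
def RanksOccur : Prop :=
  ∀ c : ℝ, 0 < c → ∀ n p k : ℕ, 0 < n → p.Prime → (p - 1) * k ≤ n →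
    ((p : ℝ) - 1) * k * Real.log n ≤ n * Real.log (1 / (400 * c)) →
    ∃ A : Matrix (Fin n) (Fin n) ℝ, A.det ≠ 0 ∧ HasGroup p k A ∧
      c * n ≤ minSq A / |A.det| ^ ((2 : ℝ) / (n : ℝ))

theorem result :
    TwoSided ∧ ExponentFixedPrime ∧ ExponentUniform ∧ NoOtherRanks ∧
    -- the analogue of the question for lattices with groups of rank at least `κ n`
    (∀ κ : ℝ, 0 < κ → Tendsto (fun n : ℕ => gammaRank κ n / n) atTop (nhds 0)) ∧
    SmallRank ∧ RanksOccur := by
  -- lower bound with `n^(-ε)` in place of `1/400`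
  have hlow : ∀ ε : ℝ, 0 < ε → ∃ n0 : ℕ, ∀ n ≥ n0, (n : ℝ) ^ (-ε) ≤ 1 / 400 := by
    intro ε hε
    have h1 : Tendsto (fun n : ℕ => (n : ℝ) ^ (-ε)) atTop (nhds 0) :=
      (tendsto_rpow_neg_atTop hε).comp tendsto_natCast_atTop_atTop
    have h2 : ∀ᶠ n : ℕ in atTop, (n : ℝ) ^ (-ε) < 1 / 400 :=
      h1.eventually (gt_mem_nhds (by norm_num))
    obtain ⟨n0, h⟩ := h2.exists_forall_of_atTop
    exact ⟨n0, fun n hn => (h n hn).le⟩
  have hlow' : ∀ (ε : ℝ) (n p k : ℕ), p.Prime → 0 < n → (p - 1) * k ≤ n →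
      (n : ℝ) ^ (-ε) ≤ 1 / 400 →
      0 < gammaSym p k n ∧
        (n : ℝ) ^ ((1 - ((p : ℝ) - 1) * k / n) - ε) ≤ gammaSym p k n := by
    intro ε n p k hp hn hk hε
    have hnr : (0 : ℝ) < n := by exact_mod_cast hn
    have h1 := lower hp hn hk
    have h2 : (0 : ℝ) < (n : ℝ) ^ (1 - ((p : ℝ) - 1) * k / n) / 400 := by positivity
    refine ⟨lt_of_lt_of_le h2 h1, le_trans ?_ h1⟩
    rw [sub_eq_add_neg _ ε, Real.rpow_add hnr, div_eq_mul_one_div _ (400 : ℝ)]
    exact mul_le_mul_of_nonneg_left hε (by positivity)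
  refine ⟨?_, ?_, ?_, ?_, ?_, ?_, ?_⟩
  · intro p k n hp hn hk
    refine ⟨lower hp hn hk, fun t ht => ?_⟩
    have hρ : 0 < rat p n t := rat_pos hp hn t
    apply gammaSym_le
    · change 0 ≤ 25 * n * rat p n t ^ (((p : ℝ) - 1) * k / n - p / (t + 1))
      positivity
    · intro A hA hs
      exact herm_bound2 hp hn ht hA (elem_of_group hA hs)
  · intro p hp ε hε
    obtain ⟨n1, h1⟩ := hlow ε hε
    obtain ⟨n2, h2⟩ := herm_asymp hp hε
    refine ⟨max (max n1 n2) 2, ?_⟩
    intro n hn k hk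
    have hn2 : 2 ≤ n := (le_max_right _ _).trans hn
    have hn0 : 0 < n := by omega
    obtain ⟨h3, h4⟩ := hlow' ε n p k hp hn0 hk
      (h1 n ((le_max_left _ _).trans ((le_max_left _ _).trans hn)))
    exact logb_bounds hn2 h3 h4 (gammaSym_le (by positivity) fun A hA hs =>
      h2 n ((le_max_right _ _).trans ((le_max_left _ _).trans hn)) k A hA (elem_of_group hA hs))
  · intro κ ε hκ hε
    obtain ⟨n1, h1⟩ := hlow ε hε
    obtain ⟨n2, h2⟩ := herm_uniform hκ hε
    refine ⟨max (max n1 n2) 2, ?_⟩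
    intro n hn p k hp hκk hk
    have hn2 : 2 ≤ n := (le_max_right _ _).trans hn
    have hn0 : 0 < n := by omega
    obtain ⟨h3, h4⟩ := hlow' ε n p k hp hn0 hk
      (h1 n ((le_max_left _ _).trans ((le_max_left _ _).trans hn)))
    exact logb_bounds hn2 h3 h4 (gammaSym_le (by positivity) fun A hA hs =>
      h2 n ((le_max_right _ _).trans ((le_max_left _ _).trans hn)) p k hp hκk A hA
        (elem_of_group hA hs))
  · intro p k n hp hn A hA hs
    exact rank_le hp hn _ (elem_of_group hA hs)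
  · intro κ hκ
    obtain ⟨n1, h1⟩ := herm_uniform (κ := κ) (ε := κ / 2) hκ (by positivity)
    have h2 : Tendsto (fun n : ℕ => (n : ℝ) ^ (-(κ / 2))) atTop (nhds 0) :=
      (tendsto_rpow_neg_atTop (by positivity)).comp tendsto_natCast_atTop_atTop
    refine tendsto_of_tendsto_of_tendsto_of_le_of_le' tendsto_const_nhds h2 ?_ ?_
    · filter_upwards with n
      apply div_nonneg _ (Nat.cast_nonneg n)
      exact Real.iSup_nonneg fun A => herm_nonneg A.1
    · filter_upwards [eventually_ge_atTop (max n1 1)] with n hn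
      have hn0 : 0 < n := lt_of_lt_of_le one_pos ((le_max_right _ _).trans hn)
      have hnr : (0 : ℝ) < n := by exact_mod_cast hn0
      have hnr1 : (1 : ℝ) ≤ n := by exact_mod_cast hn0
      rw [div_le_iff₀ hnr]
      refine Real.iSup_le ?_ (by positivity)
      rintro ⟨A, hA, p, k, hp, hk, hs⟩
      have h3 : herm A ≤ _ := h1 n ((le_max_left _ _).trans hn) p k hp hk A hA
        (elem_of_group hA hs)
      refine h3.trans ?_
      calc (n : ℝ) ^ (1 - ((p : ℝ) - 1) * k / n + κ / 2) ≤ (n : ℝ) ^ (-(κ / 2) + 1) := by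
            apply Real.rpow_le_rpow_of_exponent_le hnr1
            have h4 : κ ≤ ((p : ℝ) - 1) * k / n := by
              rw [le_div_iff₀ hnr]
              have h5 : (1 : ℝ) ≤ (p : ℝ) - 1 := by
                have : (2 : ℝ) ≤ p := by exact_mod_cast hp.two_le
                linarith
              have h6 : (0 : ℝ) ≤ k := Nat.cast_nonneg k
              nlinarith
            linarith
        _ = (n : ℝ) ^ (-(κ / 2)) * n := by rw [Real.rpow_add hnr, Real.rpow_one]
  · intro c hc hc1 n p k hn hp A hA hs hh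
    exact herm_rank2 hc hc1 hn hp hA (elem_of_group hA hs) hh
  · intro c hc n p k hn hp hk hkl
    obtain ⟨A, hA, hs, h⟩ := herm_lower hp hn hk
    have hnr : (0 : ℝ) < n := by exact_mod_cast hn
    refine ⟨A, hA, group_of_sym hA hs, le_trans ?_ h⟩
    have h400 : (0 : ℝ) < 400 * c := by positivity
    have h1 : 400 * c ≤ (n : ℝ) ^ (-(((p : ℝ) - 1) * k / n)) := by
      rw [← Real.log_le_log_iff h400 (by positivity), Real.log_rpow hnr]
      rw [one_div, Real.log_inv] at hkl
      have h2 : ((p : ℝ) - 1) * k / n * Real.log n ≤ -Real.log (400 * c) := by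
        rw [div_mul_eq_mul_div, div_le_iff₀ hnr]
        linarith
      linarith
    rw [sub_eq_add_neg, Real.rpow_add hnr, Real.rpow_one, le_div_iff₀ (by norm_num)]
    have h2 := mul_le_mul_of_nonneg_left h1 hnr.le
    linarith

end Pool.Agent.Results.MP_ef2672_gt.ElementaryAbelianSymmetry
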