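import Pool.Agent.helper275_flow.Reduce
import Pool.Agent.helper275_flow.Lower
import Pool.Agent.helper275_flow.Linear

/-!
# MP_ef2672_gt: Hermite's constant for lattices of solutions of sparse integer equations

Every unknown occurs in at most two equations (flows in graphs, order `log n`) or in at most three
equations (order `n`, as for all lattices).

A finite multigraph with positive edge weights `w` has the lattice of its integer flows `x`, with
squared length `∑ e, w e * x e ^ 2`. (Lattices of integer flows and lattices of integer cuts are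
the two basic families of lattices whose Voronoi cell is a zonotope.) Let `γ_n^flow` be the largest
Hermite invariant of an `n`-dimensional flow lattice. We prove
`log (n + 1) / 180 ≤ γ_n^flow ≤ 2349 log (n + 1)` for all `n ≥ 1`. So the analogue of the question
for flow lattices has the answer yes, with limit `γ_n^flow / n → 0`.

Upper bound: after suppressing vertices of degree at most two the graph has `m ≤ 3 n` edges. If all
nonzero flows have squared length at least `g`, then the subgraph of the edges of weight at most `τ`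
has at most `144 τ m log (m + 1) / g` independent flows (ball growing: each ball of small radius
carries no flow, and few edges leave a ball of suitable radius). So the `i`-th lightest edge outside
a lightest spanning forest has weight at least `g i / (144 m log (m + 1))`, and the product of these
weights is a lower bound for the determinant.

On the other hand, for all `n ≥ 1` there is an `n`-dimensional lattice of the integer solutions of
linear equations with coefficients `0` and `1` in which every unknown occurs at most three times,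
with squared length `∑ e, x e ^ 2`, whose Hermite invariant is at least `n / (2700 e ^ 12)`: linear in
`n`, as for the best lattices. (For flows every unknown occurs at most twice, with coefficients `1`
and `-1`.)

Lower bound for flows: a maximal graph on `2 n` vertices with all degrees at most eight and all nonzero flows
of squared length more than `log_9 n + 1` has at least `4 n` edges; delete edges until the rank is
`n`. By duality the determinant is at most a Gram determinant of vertex stars, so at most `8^(2 n)`.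

Three equations per unknown: by counting there are `4 n` triples of `3 n` equations such that no
nonempty set of at most `n / 2700` unknowns meets every equation an even number of times (Gallager);
reduce a solution modulo two, and bound the determinant by duality as before.
-/

open Filter Finset

namespace Pool.Agent.Results.MP_ef2672_gt.FlowLattices

/-- The least squared length of a nonzero vector of the lattice `A ℤ^n`. -/
noncomputable def minNorm {n : ℕ} (A : Matrix (Fin n) (Fin n) ℝ) : ℝ :=
  ⨅ w : {w : Fin n → ℤ // w ≠ 0}, ∑ i, (Matrix.mulVec A (fun j => (w.1 j : ℝ))) i ^ 2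

/-- Hermite's invariant of the lattice `A ℤ^n`. -/
noncomputable def hermite {n : ℕ} (A : Matrix (Fin n) (Fin n) ℝ) : ℝ :=
  minNorm A / |A.det| ^ ((2 : ℝ) / (n : ℝ))

/-- The integer flows of the multigraph with vertices `0, …, p-1` and edges `0, …, m-1`, where
edge `e` goes from `s e` to `t e` (loops and multiple edges are allowed): at every vertex the
inflow equals the outflow. -/
def flows {p m : ℕ} (s t : Fin m → Fin p) : Submodule ℤ (Fin m → ℤ) where
  carrier := {x | ∀ v, ∑ e with t e = v, x e = ∑ e with s e = v, x e}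
  zero_mem' := fun v => by simp
  add_mem' := by
    intro x y hx hy v
    simp only [Pi.add_apply, sum_add_distrib]
    rw [hx v, hy v]
  smul_mem' := by
    intro c x hx v
    simp only [Pi.smul_apply, smul_eq_mul, ← mul_sum]
    rw [hx v]

/-- `A ℤ^n` is isometric to the lattice of integer flows of a multigraph, with squared length
`∑ e, w e * x e ^ 2`, for some positive edge weights `w`: the columns of `A` have the same inner
products as a basis `b` of the lattice of flows. -/
def IsFlowLattice {n : ℕ} (A : Matrix (Fin n) (Fin n) ℝ) : Prop :=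
  ∃ (p m : ℕ) (s t : Fin m → Fin p) (w : Fin m → ℝ) (b : Module.Basis (Fin n) ℤ (flows s t)),
    (∀ e, 0 < w e) ∧
    ∀ i j, (A.transpose * A) i j = ∑ e, w e * ((b i).1 e : ℝ) * ((b j).1 e : ℝ)

/-- The integer solutions `x` of the equations `∑ e, x e * a e v = 0`, `v = 0, …, p-1`. -/
def solutions {p m : ℕ} (a : Fin m → Fin p → ℤ) : Submodule ℤ (Fin m → ℤ) where
  carrier := {x | ∀ v, ∑ e, x e * a e v = 0}
  zero_mem' := fun v => by simp
  add_mem' := by
    intro x y hx hy v
    simp only [Pi.add_apply, add_mul, sum_add_distrib]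
    rw [hx v, hy v, add_zero]
  smul_mem' := by
    intro c x hx v
    simp only [Pi.smul_apply, smul_eq_mul, mul_assoc, ← mul_sum]
    rw [hx v, mul_zero]

/-- `A ℤ^n` is isometric to the lattice of the integer solutions, with squared length
`∑ e, x e ^ 2`, of linear equations with coefficients `0` and `1` in which every unknown `x e` occurs
at most three times. -/
def IsTripleLattice {n : ℕ} (A : Matrix (Fin n) (Fin n) ℝ) : Prop :=
  ∃ (p m : ℕ) (a : Fin m → Fin p → ℤ) (b : Module.Basis (Fin n) ℤ (solutions a)),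
    (∀ e, (∀ v, a e v = 0 ∨ a e v = 1) ∧ ∑ v, a e v ≤ 3) ∧
    ∀ i j, (A.transpose * A) i j = ∑ e, ((b i).1 e : ℝ) * ((b j).1 e : ℝ)

/-- Hermite's constant of the flow lattices of `ℝ^n`. -/
noncomputable def flowConstant (n : ℕ) : ℝ :=
  ⨆ A : {A : Matrix (Fin n) (Fin n) ℝ // A.det ≠ 0 ∧ IsFlowLattice A}, hermite A.1

lemma flows_eq {p m : ℕ} (s t : Fin m → Fin p) :
    flows s t = Pool.Agent.helper275_flow.FA s t univ := by
  ext x
  have h : ∀ v, Pool.Agent.helper275_flow.bd s t x v =
      ∑ e with t e = v, x e - ∑ e with s e = v, x e := by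
    intro v
    rw [Pool.Agent.helper275_flow.bd_apply, sum_filter, sum_filter, ← sum_sub_distrib]
    apply sum_congr rfl
    intro e _
    rw [Pool.Agent.helper275_flow.inc]
    split_ifs <;> ring
  constructor
  · intro hx
    refine ⟨fun e he => absurd (mem_univ e) he, ?_⟩
    funext v
    rw [h v, hx v, sub_self]
    rfl
  · intro hx v
    have h1 : Pool.Agent.helper275_flow.bd s t x v = 0 := congrFun hx.2 v
    rw [h v] at h1
    linarith

lemma flows_eq_ker {p m : ℕ} (s t : Fin m → Fin p) :
    flows s t = LinearMap.ker (Pool.Agent.helper275_flow.bd s t) := by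
  rw [flows_eq]
  ext x
  exact ⟨fun h => h.2, fun h => ⟨fun e he => absurd (mem_univ e) he, h⟩⟩

lemma bddBelow {n : ℕ} (A : Matrix (Fin n) (Fin n) ℝ) : BddBelow (Set.range
    fun w : {w : Fin n → ℤ // w ≠ 0} =>
      ∑ i, (Matrix.mulVec A (fun j => (w.1 j : ℝ))) i ^ 2) := by
  refine ⟨0, ?_⟩
  rintro _ ⟨w, rfl⟩
  exact sum_nonneg fun i _ => sq_nonneg _

/-- lengths in `A ℤ^n` are weighted lengths of flows -/
lemma norm_eq {n m : ℕ} {A : Matrix (Fin n) (Fin n) ℝ} {w : Fin m → ℝ} {b : Fin n → Fin m → ℤ}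
    (hG : ∀ i j, (A.transpose * A) i j = ∑ e, w e * (b i e : ℝ) * (b j e : ℝ))
    (c : Fin n → ℤ) (x : Fin m → ℤ) (hx' : ∀ e, x e = ∑ i, c i * b i e) :
    ∑ i, (Matrix.mulVec A (fun j => (c j : ℝ))) i ^ 2 = ∑ e, w e * (x e : ℝ) ^ 2 := by
  have h3 : ∑ i, (Matrix.mulVec A (fun j => (c j : ℝ))) i ^ 2 =
      ∑ i, ∑ j, (c i : ℝ) * (c j : ℝ) * (A.transpose * A) i j := by
    have h4 : ∀ k, (Matrix.mulVec A (fun j => (c j : ℝ))) k ^ 2 =
        ∑ i, ∑ j, (c i : ℝ) * (c j : ℝ) * (A k i * A k j) := by
      intro k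
      rw [Matrix.mulVec, dotProduct, sq, sum_mul_sum]
      apply sum_congr rfl
      intro i _
      apply sum_congr rfl
      intro j _
      ring
    rw [sum_congr rfl (fun k _ => h4 k), sum_comm]
    apply sum_congr rfl
    intro i _
    rw [sum_comm]
    apply sum_congr rfl
    intro j _
    rw [Matrix.mul_apply, mul_sum]
    apply sum_congr rfl
    intro k _
    rw [Matrix.transpose_apply]
  rw [h3]
  have h5 : ∀ e, w e * (x e : ℝ) ^ 2 =
      ∑ i, ∑ j, (c i : ℝ) * (c j : ℝ) * (w e * (b i e : ℝ) * (b j e : ℝ)) := by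
    intro e
    rw [hx' e]
    push_cast
    rw [sq, sum_mul_sum, mul_sum]
    apply sum_congr rfl
    intro i _
    rw [mul_sum]
    apply sum_congr rfl
    intro j _
    ring
  rw [sum_congr rfl (fun e _ => h5 e)]
  symm
  rw [sum_comm]
  apply sum_congr rfl
  intro i _
  rw [sum_comm]
  apply sum_congr rfl
  intro j _
  rw [hG, mul_sum]

lemma rpow_det {n : ℕ} (A : Matrix (Fin n) (Fin n) ℝ) :
    (A.transpose * A).det ^ ((1 : ℝ) / n) = |A.det| ^ ((2 : ℝ) / (n : ℝ)) := by
  rw [Matrix.det_mul, Matrix.det_transpose, ← sq, ← sq_abs, ← Real.rpow_natCast,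
    ← Real.rpow_mul (abs_nonneg _)]
  congr 1
  push_cast
  ring

lemma hermite_le {n : ℕ} (hn : 0 < n) {A : Matrix (Fin n) (Fin n) ℝ} (hA : A.det ≠ 0)
    (h : IsFlowLattice A) : hermite A ≤ 2349 * Real.log (n + 1) := by
  obtain ⟨p, m, s, t, w, b, hw, hG⟩ := h
  have hlog : 0 < Real.log ((n : ℝ) + 1) := by
    apply Real.log_pos
    have : (0 : ℝ) < n := by exact_mod_cast hn
    linarith
  have hden : 0 < |A.det| ^ ((2 : ℝ) / (n : ℝ)) := Real.rpow_pos_of_pos (abs_pos.2 hA) _
  rw [hermite, div_le_iff₀ hden]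
  by_cases hg : minNorm A ≤ 0
  · refine hg.trans ?_
    positivity
  push Not at hg
  have hgood := Pool.Agent.helper275_flow.good_all m (Fin m) (Fintype.card_fin m) s t w hw
  rw [← flows_eq s t] at hgood
  have h1 := hgood n b hn (minNorm A) hg (by
    intro x hx hne
    -- coordinates of `x`
    let c : Fin n → ℤ := fun i => b.repr ⟨x, hx⟩ i
    have hc : (⟨x, hx⟩ : flows s t) = ∑ i, c i • b i := (b.sum_repr ⟨x, hx⟩).symm
    have hx' : ∀ e, x e = ∑ i, c i * (b i).1 e := by
      intro e
      have := congrArg (fun z : flows s t => z.1 e) hc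
      simp only [Submodule.coe_sum, Finset.sum_apply] at this
      exact this
    have hc0 : c ≠ 0 := by
      intro h0
      apply hne
      funext e
      rw [hx' e, h0]
      simp
    have h2 : minNorm A ≤ ∑ i, (Matrix.mulVec A (fun j => (c j : ℝ))) i ^ 2 :=
      ciInf_le (bddBelow A) (⟨c, hc0⟩ : {w : Fin n → ℤ // w ≠ 0})
    exact h2.trans (le_of_eq (norm_eq hG c x hx')))
  have h6 : Pool.Agent.helper275_flow.gramT w (fun i => (b i).1) univ = A.transpose * A := by
    ext i j
    rw [hG]
    rfl
  rw [h6, rpow_det] at h1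
  refine h1.trans ?_
  apply mul_le_mul_of_nonneg_right _ hden.le
  apply mul_le_mul_of_nonneg_right _ hlog.le
  have := Real.exp_one_lt_d9
  linarith

lemma bdd {n : ℕ} (hn : 0 < n) : BddAbove (Set.range
    fun A : {A : Matrix (Fin n) (Fin n) ℝ // A.det ≠ 0 ∧ IsFlowLattice A} => hermite A.1) := by
  refine ⟨2349 * Real.log (n + 1), ?_⟩
  rintro _ ⟨A, rfl⟩
  exact hermite_le hn A.2.1 A.2.2

lemma log_bound {n : ℕ} : Real.log ((n : ℝ) + 1) / 180 ≤ ((Nat.log 9 n + 2 : ℕ) : ℝ) / 64 := by
  have h1 : n + 1 ≤ 9 ^ (Nat.log 9 n + 1) := Nat.lt_pow_succ_log_self (by norm_num) n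
  have h2 : ((n : ℝ) + 1) ≤ (9 : ℝ) ^ (Nat.log 9 n + 1) := by exact_mod_cast h1
  have h3 : Real.log ((n : ℝ) + 1) ≤ ((Nat.log 9 n + 1 : ℕ) : ℝ) * Real.log 9 := by
    rw [← Real.log_pow]
    exact Real.log_le_log (by positivity) h2
  have h4 : Real.log 9 ≤ 4 * Real.log 2 := by
    have h5 : Real.log 9 ≤ Real.log ((2 : ℝ) ^ 4) := Real.log_le_log (by norm_num) (by norm_num)
    rw [Real.log_pow] at h5
    exact_mod_cast h5
  have h5 := Real.log_two_lt_d9
  have h6 : (0 : ℝ) ≤ ((Nat.log 9 n + 1 : ℕ) : ℝ) := Nat.cast_nonneg _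
  have h7 : ((Nat.log 9 n + 1 : ℕ) : ℝ) * Real.log 9 ≤ ((Nat.log 9 n + 1 : ℕ) : ℝ) * 2.8 :=
    mul_le_mul_of_nonneg_left (by linarith) h6
  push_cast at h3 h6 h7 ⊢
  linarith

lemma lower {n : ℕ} (hn : 0 < n) : Real.log ((n : ℝ) + 1) / 180 ≤ flowConstant n := by
  obtain ⟨m, s, t, b, hmin, hpos, hle⟩ := Pool.Agent.helper275_flow.exists_flow hn
  set G := Pool.Agent.helper275_flow.gramZ (fun i => ((b i :
    LinearMap.ker (Pool.Agent.helper275_flow.bd s t)) : Fin m → ℤ)) with hG
  let Q : Matrix (Fin n) (Fin m) ℝ := Matrix.of fun i e => ((b i).1 e : ℝ)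
  obtain ⟨A, hA⟩ := Pool.Agent.helper275_flow.exists_factor
    (Matrix.posSemidef_self_mul_conjTranspose Q)
  have hAG : ∀ i j, (A.transpose * A) i j = ∑ e, (1 : ℝ) * ((b i).1 e : ℝ) * ((b j).1 e : ℝ) := by
    intro i j
    rw [hA, Matrix.mul_apply]
    simp [Q]
  have hdet : (A.transpose * A).det = (G.det : ℝ) := by
    rw [hG, ← Pool.Agent.helper275_flow.det_gramT_one]
    congr 1
    ext i j
    rw [hAG]
    rfl
  have hA0 : A.det ≠ 0 := by
    intro h0
    rw [Matrix.det_mul, h0, mul_zero] at hdet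
    have : (0 : ℝ) < (G.det : ℝ) := by exact_mod_cast hpos
    linarith
  have hflow : IsFlowLattice A := by
    refine ⟨2 * n, m, s, t, fun _ => 1, b.map (LinearEquiv.ofEq _ _ (flows_eq_ker s t).symm),
      fun _ => one_pos, ?_⟩
    intro i j
    rw [hAG]
    rfl
  have h1 : ((Nat.log 9 n + 2 : ℕ) : ℝ) ≤ minNorm A := by
    have hne : Nonempty {w : Fin n → ℤ // w ≠ 0} := by
      refine ⟨⟨fun _ => 1, fun h => ?_⟩⟩
      have := congrFun h ⟨0, hn⟩
      simp at this
    apply le_ciInf
    intro c
    let x : Fin m → ℤ := fun e => ∑ i, c.1 i * (b i).1 e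
    rw [norm_eq hAG c.1 x (fun _ => rfl)]
    have hxmem : x = ((∑ i, c.1 i • b i : LinearMap.ker (Pool.Agent.helper275_flow.bd s t)) :
        Fin m → ℤ) := by
      funext e
      simp only [x, Submodule.coe_sum, Finset.sum_apply]
      rfl
    have hx0 : x ≠ 0 := by
      intro h0
      rw [hxmem] at h0
      have h2 : (∑ i, c.1 i • b i : LinearMap.ker (Pool.Agent.helper275_flow.bd s t)) = 0 :=
        Subtype.ext h0
      apply c.2
      funext i
      exact Fintype.linearIndependent_iff.1 b.linearIndependent c.1 h2 i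
    have h3 := hmin x (by rw [hxmem]; exact Subtype.mem _) hx0
    simp only [one_mul]
    exact_mod_cast h3
  have hden : 0 < |A.det| ^ ((2 : ℝ) / (n : ℝ)) := Real.rpow_pos_of_pos (abs_pos.2 hA0) _
  have h2 : |A.det| ^ ((2 : ℝ) / (n : ℝ)) ≤ 64 := by
    rw [← rpow_det, hdet]
    have h3 : (0 : ℝ) ≤ (G.det : ℝ) := by exact_mod_cast hpos.le
    calc (G.det : ℝ) ^ ((1 : ℝ) / n) ≤ ((8 : ℝ) ^ (2 * n)) ^ ((1 : ℝ) / n) :=
          Real.rpow_le_rpow h3 hle (by positivity)
      _ = 64 := by
          rw [pow_mul, one_div, Real.pow_rpow_inv_natCast (by norm_num) hn.ne']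
          norm_num
  have h3 : ((Nat.log 9 n + 2 : ℕ) : ℝ) / 64 ≤ hermite A := by
    rw [hermite]
    apply div_le_div₀ _ h1 hden h2
    exact le_trans (Nat.cast_nonneg _) h1
  refine (log_bound.trans h3).trans ?_
  exact le_ciSup (bdd hn) (⟨A, hA0, hflow⟩ :
    {A : Matrix (Fin n) (Fin n) ℝ // A.det ≠ 0 ∧ IsFlowLattice A})

lemma solutions_eq_ker {p m : ℕ} (a : Fin m → Fin p → ℤ) :
    solutions a = LinearMap.ker (Pool.Agent.helper275_flow.bdA a) := by
  ext x
  constructor
  · intro h
    rw [LinearMap.mem_ker]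
    funext v
    exact h v
  · intro h v
    exact congrFun h v

lemma linear_lower {n : ℕ} (hn : 0 < n) : ∃ A : Matrix (Fin n) (Fin n) ℝ, A.det ≠ 0 ∧
    IsTripleLattice A ∧ Real.exp (-12) / 2700 * n ≤ hermite A := by
  obtain ⟨m, a, b, hcol, hmin, hpos, hle⟩ := Pool.Agent.helper275_flow.exists_linear hn
  set G := Pool.Agent.helper275_flow.gramZ (fun i => ((b i :
    LinearMap.ker (Pool.Agent.helper275_flow.bdA a)) : Fin m → ℤ)) with hG
  let Q : Matrix (Fin n) (Fin m) ℝ := Matrix.of fun i e => ((b i).1 e : ℝ)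
  obtain ⟨A, hA⟩ := Pool.Agent.helper275_flow.exists_factor
    (Matrix.posSemidef_self_mul_conjTranspose Q)
  have hAG : ∀ i j, (A.transpose * A) i j = ∑ e, (1 : ℝ) * ((b i).1 e : ℝ) * ((b j).1 e : ℝ) := by
    intro i j
    rw [hA, Matrix.mul_apply]
    simp [Q]
  have hdet : (A.transpose * A).det = (G.det : ℝ) := by
    rw [hG, ← Pool.Agent.helper275_flow.det_gramT_one]
    congr 1
    ext i j
    rw [hAG]
    rfl
  have hA0 : A.det ≠ 0 := by
    intro h0
    rw [Matrix.det_mul, h0, mul_zero] at hdet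
    have : (0 : ℝ) < (G.det : ℝ) := by exact_mod_cast hpos
    linarith
  have htriple : IsTripleLattice A := by
    refine ⟨3 * n, m, a, b.map (LinearEquiv.ofEq _ _ (solutions_eq_ker a).symm), hcol, ?_⟩
    intro i j
    rw [hAG]
    apply sum_congr rfl
    intro e _
    rw [one_mul]
    rfl
  refine ⟨A, hA0, htriple, ?_⟩
  have h1 : (n : ℝ) / 2700 ≤ minNorm A := by
    have hne : Nonempty {w : Fin n → ℤ // w ≠ 0} := by
      refine ⟨⟨fun _ => 1, fun h => ?_⟩⟩
      have := congrFun h ⟨0, hn⟩
      simp at this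
    apply le_ciInf
    intro c
    let x : Fin m → ℤ := fun e => ∑ i, c.1 i * (b i).1 e
    rw [norm_eq hAG c.1 x (fun _ => rfl)]
    have hxmem : x = ((∑ i, c.1 i • b i :
        LinearMap.ker (Pool.Agent.helper275_flow.bdA a)) : Fin m → ℤ) := by
      funext e
      simp only [x, Submodule.coe_sum, Finset.sum_apply]
      rfl
    have hx0 : x ≠ 0 := by
      intro h0
      rw [hxmem] at h0
      have h2 : (∑ i, c.1 i • b i : LinearMap.ker (Pool.Agent.helper275_flow.bdA a)) = 0 :=
        Subtype.ext h0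
      apply c.2
      funext i
      exact Fintype.linearIndependent_iff.1 b.linearIndependent c.1 h2 i
    have h3 := hmin x (by rw [hxmem]; exact Subtype.mem _) hx0
    have h4 : (n : ℝ) ≤ 2700 * ∑ e, (x e : ℝ) ^ 2 := by exact_mod_cast h3
    simp only [one_mul]
    linarith
  have hden : 0 < |A.det| ^ ((2 : ℝ) / (n : ℝ)) := Real.rpow_pos_of_pos (abs_pos.2 hA0) _
  have h2 : |A.det| ^ ((2 : ℝ) / (n : ℝ)) ≤ Real.exp 12 := by
    rw [← rpow_det, hdet]
    have h3 : (0 : ℝ) ≤ (G.det : ℝ) := by exact_mod_cast hpos.le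
    calc (G.det : ℝ) ^ ((1 : ℝ) / n) ≤ (Real.exp (12 * n)) ^ ((1 : ℝ) / n) :=
          Real.rpow_le_rpow h3 hle (by positivity)
      _ = Real.exp 12 := by
          rw [← Real.exp_mul]
          congr 1
          have : (n : ℝ) ≠ 0 := by exact_mod_cast hn.ne'
          field_simp
  rw [hermite, le_div_iff₀ hden]
  have h5 : Real.exp (-12) * |A.det| ^ ((2 : ℝ) / (n : ℝ)) ≤ 1 := by
    calc Real.exp (-12) * |A.det| ^ ((2 : ℝ) / (n : ℝ)) ≤ Real.exp (-12) * Real.exp 12 :=
          mul_le_mul_of_nonneg_left h2 (Real.exp_pos _).le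
      _ = 1 := by rw [← Real.exp_add]; norm_num
  calc Real.exp (-12) / 2700 * n * |A.det| ^ ((2 : ℝ) / (n : ℝ)) =
      (n / 2700) * (Real.exp (-12) * |A.det| ^ ((2 : ℝ) / (n : ℝ))) := by ring
    _ ≤ (n / 2700) * 1 := mul_le_mul_of_nonneg_left h5 (by positivity)
    _ ≤ minNorm A := by rw [mul_one]; exact h1

theorem result :
    -- every flow lattice
    (∀ n : ℕ, 0 < n → ∀ A : Matrix (Fin n) (Fin n) ℝ, A.det ≠ 0 → IsFlowLattice A →
      hermite A ≤ 2349 * Real.log (n + 1)) ∧
    -- Hermite's constant of flow lattices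
    (∀ n : ℕ, 0 < n → Real.log (n + 1) / 180 ≤ flowConstant n ∧
      flowConstant n ≤ 2349 * Real.log (n + 1)) ∧
    Tendsto (fun n : ℕ => flowConstant n / n) atTop (nhds 0) ∧
    -- three equations per unknown: linear order
    (∀ n : ℕ, 0 < n → ∃ A : Matrix (Fin n) (Fin n) ℝ, A.det ≠ 0 ∧ IsTripleLattice A ∧
      Real.exp (-12) / 2700 * n ≤ hermite A) := by
  have hup : ∀ n : ℕ, 0 < n → flowConstant n ≤ 2349 * Real.log (n + 1) := by
    intro n hn
    have hne : Nonempty {A : Matrix (Fin n) (Fin n) ℝ // A.det ≠ 0 ∧ IsFlowLattice A} := by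
      by_contra h
      rw [not_nonempty_iff] at h
      have h1 := lower hn
      rw [flowConstant, Real.iSup_of_isEmpty] at h1
      have h2 : 0 < Real.log ((n : ℝ) + 1) := by
        apply Real.log_pos
        have : (0 : ℝ) < n := by exact_mod_cast hn
        linarith
      linarith
    exact ciSup_le fun A => hermite_le hn A.2.1 A.2.2
  refine ⟨fun n hn A hA h => hermite_le hn hA h, fun n hn => ⟨lower hn, hup n hn⟩, ?_,
    fun n hn => linear_lower hn⟩
  have hlim : Tendsto (fun n : ℕ => 2349 * (Real.log ((n : ℝ) + 1) / n)) atTop (nhds 0) := by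
    have h1 : Tendsto (fun x : ℝ => Real.log x / x) atTop (nhds 0) := by
      have := Real.isLittleO_log_id_atTop.tendsto_div_nhds_zero
      simpa using this
    have h2 : Tendsto (fun n : ℕ => ((n : ℝ) + 1)) atTop atTop :=
      tendsto_atTop_add_const_right _ _ tendsto_natCast_atTop_atTop
    have h3 := h1.comp h2
    have h4 : Tendsto (fun n : ℕ => ((n : ℝ) + 1) / n) atTop (nhds 1) := by
      have h5 : Tendsto (fun n : ℕ => 1 + 1 / (n : ℝ)) atTop (nhds (1 + 0)) :=
        tendsto_const_nhds.add tendsto_one_div_atTop_nhds_zero_nat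
      rw [add_zero] at h5
      refine h5.congr' ?_
      filter_upwards [eventually_gt_atTop 0] with n hn
      have : (n : ℝ) ≠ 0 := by exact_mod_cast hn.ne'
      field_simp
    have h6 := (h3.mul h4).const_mul 2349
    rw [zero_mul, mul_zero] at h6
    refine h6.congr' ?_
    filter_upwards [eventually_gt_atTop 0] with n hn
    have h7 : (n : ℝ) ≠ 0 := by exact_mod_cast hn.ne'
    have h8 : (n : ℝ) + 1 ≠ 0 := by positivity
    simp only [Function.comp]
    field_simp
  refine tendsto_of_tendsto_of_tendsto_of_le_of_le' tendsto_const_nhds hlim ?_ ?_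
  · filter_upwards [eventually_gt_atTop 0] with n hn
    have h1 : 0 ≤ Real.log ((n : ℝ) + 1) := Real.log_nonneg (by
      have : (0 : ℝ) ≤ n := Nat.cast_nonneg n
      linarith)
    have h2 := lower hn
    apply div_nonneg _ (Nat.cast_nonneg n)
    linarith
  · filter_upwards [eventually_gt_atTop 0] with n hn
    have h1 := hup n hn
    have h2 : (0 : ℝ) < n := by exact_mod_cast hn
    rw [← mul_div_assoc]
    exact div_le_div_of_nonneg_right h1 h2.le

end Pool.Agent.Results.MP_ef2672_gt.FlowLattices
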