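import Pool.Agent.helper275_ring.Herm

/-!
# MP_ef2672_gt: Hermite's constant for lattices that are rings

A lattice of `ℝ^n` is called a ring lattice here if it is similar to a subring of `ℤ^n` (all
operations componentwise, `1 = (1, …, 1)` in the ring). The integer lattice and the Barnes–Wall
lattices (the span of `2^⌈d/2⌉ x_{i_1} ⋯ x_{i_d}`, as functions on `{0,1}^m`) are examples. Let
`γ_n^ring` be the largest Hermite invariant of ring lattices of `ℝ^n`. We prove
`√n / 4 ≤ γ_n^ring ≤ √n` for all `n`, and `√(n/2) ≤ γ_n^ring ≤ √n` for `n = 2^m`. So the analogue of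
the question for ring lattices has the answer yes, with limit `γ_n^ring / n → 0`.

The upper bound comes from an inequality for all lattices `L ⊆ ℤ^n` closed under the componentwise
product: the least squared length of a nonzero vector is at most `det(L)^(4/n)`. Its proof: let
`f_i > 0` be least with `f_i e_i ∈ L`. Along a chain of ideals of `ℤ^n` from `ℤ^n` to `⊕ f_i ℤ` with
steps of prime index, intersected with `L`, every step and its complementary step cannot both be
proper, because the product of two vectors of `L` would give a proper divisor of some `f_i`. So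
`[L : ⊕ f_i ℤ]² ≤ ∏ f_i`, that is `∏ f_i ≤ [ℤ^n : L]²`.
-/

open Filter

namespace Pool.Agent.Results.MP_ef2672_gt.RingLattices

/-- The least squared length of a nonzero vector of the lattice `A ℤ^n`. -/
noncomputable def minNorm {n : ℕ} (A : Matrix (Fin n) (Fin n) ℝ) : ℝ :=
  ⨅ w : {w : Fin n → ℤ // w ≠ 0}, ∑ i, (Matrix.mulVec A (fun j => (w.1 j : ℝ))) i ^ 2

/-- Hermite's invariant of the lattice `A ℤ^n`. -/
noncomputable def hermite {n : ℕ} (A : Matrix (Fin n) (Fin n) ℝ) : ℝ :=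
  minNorm A / |A.det| ^ ((2 : ℝ) / (n : ℝ))

/-- `A ℤ^n = L`, for a set `L` of integer vectors. -/
def Represents {n : ℕ} (A : Matrix (Fin n) (Fin n) ℝ) (L : Set (Fin n → ℤ)) : Prop :=
  {v : Fin n → ℝ | ∃ w : Fin n → ℤ, A.mulVec (fun j => (w j : ℝ)) = v} =
    {v : Fin n → ℝ | ∃ x ∈ L, (fun i => (x i : ℝ)) = v}

/-- The lattice `A ℤ^n` is similar to a subring of `ℤ^n` (componentwise operations, with `1`). -/
def IsRingLattice {n : ℕ} (A : Matrix (Fin n) (Fin n) ℝ) : Prop :=
  ∃ (c : ℝ) (Q B : Matrix (Fin n) (Fin n) ℝ) (R : Subring (Fin n → ℤ)), c ≠ 0 ∧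
    Q ∈ Matrix.orthogonalGroup (Fin n) ℝ ∧ Represents B R ∧ A = c • (Q * B)

/-- Hermite's constant of the ring lattices of `ℝ^n`. -/
noncomputable def ringConstant (n : ℕ) : ℝ :=
  ⨆ A : {A : Matrix (Fin n) (Fin n) ℝ // A.det ≠ 0 ∧ IsRingLattice A}, hermite A.1

lemma hermite_le {n : ℕ} (hn : 0 < n) {A : Matrix (Fin n) (Fin n) ℝ} (hA : A.det ≠ 0)
    (h : IsRingLattice A) : hermite A ≤ √n := by
  obtain ⟨c, Q, B, R, hc, hQ, hR, hAB⟩ := h
  have h1 : hermite A = hermite B := Pool.Agent.helper275_ring.herm_similar hn hc hQ hAB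
  rw [h1]
  have hB : B.det ≠ 0 := by
    intro h0
    apply hA
    rw [hAB, Matrix.det_smul, Matrix.det_mul, h0]
    simp
  exact Pool.Agent.helper275_ring.herm_le_sqrt hn hB hR

lemma bdd {n : ℕ} (hn : 0 < n) : BddAbove (Set.range
    fun A : {A : Matrix (Fin n) (Fin n) ℝ // A.det ≠ 0 ∧ IsRingLattice A} => hermite A.1) := by
  refine ⟨√n, ?_⟩
  rintro _ ⟨A, rfl⟩
  exact hermite_le hn A.2.1 A.2.2

lemma isRing_of {n : ℕ} {A : Matrix (Fin n) (Fin n) ℝ} {R : Subring (Fin n → ℤ)}
    (h : Represents A R) : IsRingLattice A :=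
  ⟨1, 1, A, R, one_ne_zero, one_mem _, h, by rw [one_smul, one_mul]⟩

theorem result :
    -- lattices in `ℤ^n` closed under the componentwise product
    (∀ n : ℕ, 0 < n → ∀ A : Matrix (Fin n) (Fin n) ℝ, A.det ≠ 0 →
      ∀ L : AddSubgroup (Fin n → ℤ), Represents A L → (∀ x ∈ L, ∀ y ∈ L, x * y ∈ L) →
        minNorm A ≤ |A.det| ^ ((4 : ℝ) / n)) ∧
    -- Hermite's constant of ring lattices
    (∀ n : ℕ, 0 < n → √n / 4 ≤ ringConstant n ∧ ringConstant n ≤ √n) ∧
    (∀ m : ℕ, √(2 ^ m / 2) ≤ ringConstant (2 ^ m)) ∧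
    Tendsto (fun n : ℕ => ringConstant n / n) atTop (nhds 0) := by
  have hlow : ∀ n : ℕ, 0 < n → √n / 4 ≤ ringConstant n := by
    intro n hn
    obtain ⟨A, R, hA, hR, h⟩ := Pool.Agent.helper275_ring.lower_all hn
    exact h.trans (le_ciSup (bdd hn) ⟨A, hA, isRing_of hR⟩)
  have hup : ∀ n : ℕ, 0 < n → ringConstant n ≤ √n := by
    intro n hn
    obtain ⟨A, R, hA, hR, -⟩ := Pool.Agent.helper275_ring.lower_all hn
    have : Nonempty {A : Matrix (Fin n) (Fin n) ℝ // A.det ≠ 0 ∧ IsRingLattice A} :=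
      ⟨⟨A, hA, isRing_of hR⟩⟩
    exact ciSup_le fun A => hermite_le hn A.2.1 A.2.2
  refine ⟨?_, fun n hn => ⟨hlow n hn, hup n hn⟩, ?_, ?_⟩
  · intro n hn A hA L hL hmul
    have h1 : minNorm A ≤ (|A.det| ^ ((2 : ℝ) / (n : ℝ))) ^ 2 :=
      Pool.Agent.helper275_ring.minNorm_le_sq hn hA hL hmul
    refine h1.trans (le_of_eq ?_)
    rw [← Real.rpow_natCast, ← Real.rpow_mul (abs_nonneg _)]
    congr 1
    push_cast
    ring
  · intro m
    obtain ⟨A, R, hA, hR, h⟩ := Pool.Agent.helper275_ring.lower_two_pow m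
    exact h.trans (le_ciSup (bdd (by positivity)) ⟨A, hA, isRing_of hR⟩)
  · have h1 : Tendsto (fun n : ℕ => (√n)⁻¹) atTop (nhds 0) :=
      tendsto_inv_atTop_zero.comp
        (Real.tendsto_sqrt_atTop.comp tendsto_natCast_atTop_atTop)
    refine tendsto_of_tendsto_of_tendsto_of_le_of_le' tendsto_const_nhds h1 ?_ ?_
    · filter_upwards [eventually_gt_atTop 0] with n hn
      have := hlow n hn
      have h2 : 0 ≤ √(n : ℝ) := Real.sqrt_nonneg _
      exact div_nonneg (by linarith) (Nat.cast_nonneg n)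
    · filter_upwards [eventually_gt_atTop 0] with n hn
      have hn' : (0 : ℝ) < n := by exact_mod_cast hn
      have hs : 0 < √(n : ℝ) := Real.sqrt_pos.2 hn'
      rw [div_le_iff₀ hn']
      refine (hup n hn).trans (le_of_eq ?_)
      rw [inv_mul_eq_div, eq_div_iff hs.ne', Real.mul_self_sqrt hn'.le]

end Pool.Agent.Results.MP_ef2672_gt.RingLattices
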