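import Pool.Agent.H442SN.Cor
import Pool.Agent.H442SN.Sharp

/-!
# MP_ef2672_gt: polynomials vanishing on the short vectors of a dense lattice

Let `L = A ℤⁿ` be a lattice with least length `λ` and Hermite invariant `γ(L)`. If a function `g` on
`L` whose translates span a space of dimension `2 ^ (σ n)` (for instance a polynomial of degree
`≤ σ' n` over any field) is nonzero at `0` and vanishes at all nonzero vectors shorter than `√2 λ`,
then `γ(L) / n ≤ (1 + ε) / (2πe)`, the believed upper bound. So in a lattice with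
`γ(L) ≥ (1 + ε) n / (2πe)` every such `g` that vanishes at these vectors vanishes at `0`: polynomial
systems over finite fields satisfying a condition of Chevalley–Warning type have a zero shorter than
`√2 λ`, every prime power `≤ σ n` divides the norm of such a vector if the norms are integers, and
these vectors have more than `σ n` lengths. The linear order is right.
-/

open Filter
open scoped Topology

namespace Pool.Agent.Results.MP_ef2672_gt.ShortVectorsPolynomials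

open Pool.Agent.H160R3.Herm Pool.Agent.H442SN

variable {n : ℕ}

/-- `w` is `τ`-short for the lattice `A ℤⁿ`: it is not `0` and the squared length of `A w` is less
than `τ` times the least squared length `minSq A` -/
def Short (A : Matrix (Fin n) (Fin n) ℝ) (τ : ℝ) (w : Fin n → ℤ) : Prop :=
  w ≠ 0 ∧ nsq A w < τ * minSq A

/-- `A ℤⁿ` is a lattice with Hermite invariant at least `c n / (2πe)` -/
def Dense (A : Matrix (Fin n) (Fin n) ℝ) (c : ℝ) : Prop :=
  A.det ≠ 0 ∧ c / (2 * Real.pi * Real.exp 1) ≤ hinv A / n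

/-- the translates of `g` lie in a space of dimension at most `D` -/
def FewTranslates (K : Type) [Field K] (g : (Fin n → ℤ) → K) (D : ℝ) : Prop :=
  ∃ V : Submodule K ((Fin n → ℤ) → K), FiniteDimensional K V ∧ (Module.finrank K V : ℝ) ≤ D ∧
    ∀ w, (fun z => g (z - w)) ∈ V

/-- a polynomial over a field of degree at most `d` that vanishes at all `τ`-short vectors vanishes
at `0` -/
def PolyClosed (A : Matrix (Fin n) (Fin n) ℝ) (τ d : ℝ) : Prop :=
  ∀ (K : Type) [Field K] (G : MvPolynomial (Fin n) K), (G.totalDegree : ℝ) ≤ d →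
    (∀ w, Short A τ w → ev G w = 0) → ev G 0 = 0

/-- a system `f i` of polynomials over a finite field `F`, without constant terms and with
`(|F| - 1) ∑ deg (f i) ≤ d`, has a `τ`-short common zero -/
def ShortZeros (A : Matrix (Fin n) (Fin n) ℝ) (τ d : ℝ) : Prop :=
  ∀ (F : Type) [Field F] [Fintype F] (r : ℕ) (f : Fin r → MvPolynomial (Fin n) F),
    (∀ i, ev (f i) 0 = 0) → (((Fintype.card F - 1) * ∑ i, (f i).totalDegree : ℕ) : ℝ) ≤ d →
    ∃ w, Short A τ w ∧ ∀ i, ev (f i) w = 0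

/-- if all squared lengths are integer multiples of `η`, then each prime power `p ^ a ≤ d` divides
`|A w| ^ 2 / η` for some `τ`-short `w` -/
def ShortDivisible (A : Matrix (Fin n) (Fin n) ℝ) (τ d : ℝ) : Prop :=
  ∀ η : ℝ, 0 < η → (∀ w : Fin n → ℤ, ∃ N : ℤ, nsq A w = η * N) →
    ∀ p a : ℕ, p.Prime → ((p ^ a : ℕ) : ℝ) ≤ d →
    ∃ w, Short A τ w ∧ ∃ N : ℤ, nsq A w = η * (p ^ a * N)

theorem result :
    -- functions with few independent translates
    (∀ ε : ℝ, 0 < ε → ∃ σ : ℝ, 0 < σ ∧ ∀ᶠ n : ℕ in atTop,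
      ∀ A : Matrix (Fin n) (Fin n) ℝ, A.det ≠ 0 → ∀ τ : ℝ, 0 < τ →
      ∀ (K : Type) [Field K] (O : Subring K) (k : Type) [Field k] (φ : O →+* k)
        (g : (Fin n → ℤ) → O), FewTranslates K (fun w => (g w : K)) (2 ^ (σ * n)) →
        φ (g 0) ≠ 0 →
        hinv A / n ≤ 2 / τ * ((1 + ε) / (2 * Real.pi * Real.exp 1)) *
          ({w | Short A τ w ∧ φ (g w) ≠ 0}.ncard + 1 : ℝ) ^ ((2 : ℝ) / n)) ∧
    -- consequences for dense lattices
    (∀ c τ : ℝ, 0 < τ → 2 < c * τ → ∃ σ : ℝ, 0 < σ ∧ ∀ᶠ n : ℕ in atTop,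
      ∀ A : Matrix (Fin n) (Fin n) ℝ, Dense A c →
        PolyClosed A τ (σ * n) ∧ ShortZeros A τ (σ * n) ∧ ShortDivisible A τ (σ * n) ∧
        σ * n < (nsq A '' {w | Short A τ w}).ncard) ∧
    -- the linear order is right
    (∀ c : ℝ, c < 1 → ∃ C : ℝ, ∀ n : ℕ, 0 < n →
      ∃ A : Matrix (Fin n) (Fin n) ℝ, Dense A c ∧ (∀ w, ∃ N : ℤ, nsq A w = N) ∧
        minSq A ≤ C * n) ∧
    (∀ (n : ℕ) (A : Matrix (Fin n) (Fin n) ℝ), ∃ G : MvPolynomial (Fin n) (ZMod 2),
      G.totalDegree ≤ n ∧ ev G 0 ≠ 0 ∧ ∀ w, Short A 4 w → ev G w = 0) := by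
  refine ⟨fun ε hε => ?_, fun c τ hτ h => ?_, fun c hc => ?_, fun n A => ?_⟩
  · obtain ⟨σ, hσ0, hσ⟩ := gen_asym hε
    refine ⟨σ, hσ0, ?_⟩
    filter_upwards [hσ] with n hn A hA τ hτ K _ O k _ φ g hg h0
    obtain ⟨V, hfin, hV, htr⟩ := hg
    have h := hn A hA τ hτ K O k φ (fun w => (g w : K)) (fun w => (g w).2) V hfin hV htr h0
    have e : {w | Short A τ w ∧ φ (g w) ≠ 0} = {w : Fin n → ℤ | w ≠ 0 ∧
        nsq A w < τ * minSq A ∧ φ ⟨(g w : K), (g w).2⟩ ≠ 0} := by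
      ext w
      simp only [Set.mem_ofPred_eq, Short, and_assoc]
    rw [e]
    exact h
  · obtain ⟨σ, hσ0, hσ⟩ := poly_cor hτ h
    refine ⟨σ, hσ0, ?_⟩
    filter_upwards [hσ] with n hn A hA
    obtain ⟨h1, h2, h3⟩ := hn A hA.1 hA.2
    refine ⟨fun K _ G hd hG => h1 K G hd fun w hw0 hw1 => hG w ⟨hw0, hw1⟩, ?_, ?_, ?_⟩
    · intro F _ _ r f h0 hd
      obtain ⟨w, hw0, hw1, hw⟩ := cw_cor h1 F r f h0 hd
      exact ⟨w, ⟨hw0, hw1⟩, hw⟩
    · intro η hη hN p a hp hq
      obtain ⟨w, hw0, hw1, hw⟩ := h2 η hη hN p a hp hq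
      exact ⟨w, ⟨hw0, hw1⟩, hw⟩
    · have e : nsq A '' {w | Short A τ w} =
          {x : ℝ | ∃ w : Fin n → ℤ, w ≠ 0 ∧ nsq A w < τ * minSq A ∧ nsq A w = x} := by
        ext x
        simp only [Set.mem_image, Set.mem_ofPred_eq, Short, and_assoc]
      rw [e]
      exact h3
  · obtain ⟨C, hC⟩ := sharp hc
    refine ⟨C, fun n hn => ?_⟩
    obtain ⟨A, h1, h2, h3, h4⟩ := hC n hn
    exact ⟨A, ⟨h1, h2⟩, h3, h4⟩
  · obtain ⟨G, h1, h2, h3⟩ := f2_poly (A := A)
    exact ⟨G, h1, h2, fun w hw => h3 w hw.1 hw.2⟩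

end Pool.Agent.Results.MP_ef2672_gt.ShortVectorsPolynomials
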